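import Pool.Agent.W169.HF.DefsD

set_option autoImplicit false

/-!
# Project GLD, part INVX: the inverse heat flow with the profile `phx`
-/

namespace Pool.Agent.W583.HF

open Complex Filter Topology MeasureTheory Set
open scoped ComplexConjugate
open Pool.Agent.W169.HF

lemma expo {x r η σ b : ℝ} (hx : 0 < x) (hη : 0 < η) (hηx : η ≤ 2 * x)
    (hσ : σ = max η (r - x)) (hb : b = r - σ) (hr : 0 ≤ r) :
    b ^ 2 / (2 * x) + σ + x / 2 ≤ phx x r + 2 * η := by
  unfold phx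
  rcases le_total η (r - x) with h | h
  · rw [max_eq_right h] at hσ
    have hb' : b = x := by rw [hb, hσ]; ring
    rw [hb', hσ]
    have e : x ^ 2 / (2 * x) = x / 2 := by field_simp
    rw [e]
    have : 0 ≤ max (x - r) 0 ^ 2 / (2 * x) := by positivity
    linarith
  · rw [max_eq_left h] at hσ
    obtain ⟨p, hp⟩ : ∃ p : ℝ, p = max (x - r) 0 := ⟨_, rfl⟩
    have hp0 : 0 ≤ p := by rw [hp]; exact le_max_right _ _
    have hp1 : x - r ≤ p := by rw [hp]; exact le_max_left _ _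
    have hp2 : p ≤ x := by rw [hp]; exact max_le (by linarith) hx.le
    rw [hb, hσ, ← hp]
    have e : (r - η) ^ 2 / (2 * x) + η + x / 2 = (x - r + η) ^ 2 / (2 * x) + r := by
      field_simp
      ring
    rw [e]
    have h1 : (x - r + η) ^ 2 ≤ (p + η) ^ 2 := pow_le_pow_left₀ (by linarith) (by linarith) 2
    have h2 : (x - r + η) ^ 2 / (2 * x) ≤ p ^ 2 / (2 * x) + 2 * η := by
      rw [div_le_iff₀ (by positivity)]
      have e2 : (p ^ 2 / (2 * x) + 2 * η) * (2 * x) = p ^ 2 + 4 * η * x := by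
        field_simp
        ring
      rw [e2]
      have h3 : p * η ≤ x * η := mul_le_mul_of_nonneg_right hp2 hη.le
      have h4 : η * η ≤ η * (2 * x) := mul_le_mul_of_nonneg_left hηx hη.le
      linarith
    linarith

lemma gauss_int {t c : ℝ} (ht : 0 < t) (hc : 0 < c) :
    Integrable (fun y : ℝ => Real.exp (-(y ^ 2 / (c * t)))) ∧
      ∫ y : ℝ, Real.exp (-(y ^ 2 / (c * t))) = Real.sqrt (c * Real.pi * t) := by
  have e : (fun y : ℝ => Real.exp (-(y ^ 2 / (c * t)))) =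
      fun y : ℝ => Real.exp (-(1 / (c * t)) * y ^ 2) := by
    funext y
    congr 1
    ring
  rw [e]
  refine ⟨integrable_exp_neg_mul_sq (by positivity), ?_⟩
  rw [integral_gaussian]
  congr 1
  field_simp

/-- bound for `f r` from bounds for the flow on a vertical line -/
lemma at_pt (h4 : S_INV) {K t ℓ G a X ϑ0 R2 r b : ℝ} {f : ℂ → ℂ} (hf : Slow f) (ht : 0 < t)
    (hG : 0 < G) (hK : 1 ≤ K) (hX : 1 ≤ X) (h2 : 2 * t * ℓ ≤ X) (hℓ : 0 < ℓ) (hϑ : 0 ≤ ϑ0)
    (hR2 : 1 ≤ R2) (hR2' : 4 * X * ϑ0 ≤ R2 ^ 2) (hℓK : 16 * K * X ≤ ℓ)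
    (hin : ∀ y : ℝ, |y| ≤ R2 → ‖heat t f (((r - b : ℝ) : ℂ) + I * y)‖ ≤ G * Real.exp a)
    (hout : ∀ y : ℝ, ‖heat t f (((r - b : ℝ) : ℂ) + I * y)‖ ≤
      G * Real.exp (ℓ * ϑ0 + K * (1 + y ^ 2))) :
    ‖f r‖ ≤ Real.exp (b ^ 2 / (4 * t)) * (G * (Real.exp a + 2)) := by
  have hXp : 0 < X := by linarith
  obtain ⟨hi, hv⟩ := h4 f hf t ht r (I * (b : ℂ))
  obtain ⟨g1, g2⟩ := gauss_int ht (by norm_num : (0 : ℝ) < 4)
  obtain ⟨g3, g4⟩ := gauss_int ht (by norm_num : (0 : ℝ) < 16)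
  have e0 : ∀ y : ℝ, (r : ℂ) + I * (I * (b : ℂ) + y) = ((r - b : ℝ) : ℂ) + I * y := by
    intro y
    push_cast
    linear_combination (b : ℂ) * I_sq
  have e1 : ∀ y : ℝ, (-((I * (b : ℂ) + y) ^ 2 / (4 * t))).re = b ^ 2 / (4 * t) - y ^ 2 / (4 * t) := by
    intro y
    have : -((I * (b : ℂ) + y) ^ 2 / (4 * t)) = ((b ^ 2 / (4 * t) - y ^ 2 / (4 * t) : ℝ) : ℂ) +
        ((-(2 * b * y) / (4 * t) : ℝ) : ℂ) * I := by
      push_cast
      linear_combination (-(b : ℂ) ^ 2 / (4 * t)) * I_sq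
    rw [this, Complex.add_re, Complex.ofReal_re, Complex.re_ofReal_mul, Complex.I_re, mul_zero,
      add_zero]
  have hb : ∀ y : ℝ, ‖cexp (-((I * (b : ℂ) + (y : ℂ)) ^ 2 / (4 * t))) *
      heat t f ((r : ℂ) + I * (I * (b : ℂ) + y))‖ ≤
      Real.exp (b ^ 2 / (4 * t)) *
      (G * Real.exp a * Real.exp (-(y ^ 2 / (4 * t))) + G * Real.exp (-(y ^ 2 / (16 * t)))) := by
    intro y
    rw [e0, norm_mul, Complex.norm_exp, e1, sub_eq_add_neg, Real.exp_add, mul_assoc]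
    apply mul_le_mul_of_nonneg_left _ (Real.exp_pos _).le
    rcases le_or_gt |y| R2 with hy | hy
    · have := mul_le_mul_of_nonneg_left (hin y hy) (Real.exp_pos (-(y ^ 2 / (4 * t)))).le
      have h0 : 0 ≤ G * Real.exp (-(y ^ 2 / (16 * t))) := by positivity
      linarith
    · have hy2 : R2 ^ 2 ≤ y ^ 2 := by
        rw [← sq_abs y]
        exact pow_le_pow_left₀ (by linarith) hy.le 2
      have hy1 : 1 ≤ y ^ 2 := le_trans (by nlinarith only [hR2]) hy2
      have a1 : K * (1 + y ^ 2) ≤ y ^ 2 / (16 * t) := by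
        have b1 : K * (1 + y ^ 2) ≤ 2 * K * y ^ 2 := by nlinarith only [hy1, hK]
        have b2 : 2 * K ≤ 1 / (16 * t) := by
          rw [le_div_iff₀ (by positivity)]
          by_contra hcon
          push Not at hcon
          have b3 : ℓ < 2 * K * (16 * t) * ℓ := by nlinarith only [hcon, hℓ]
          have b4 : 2 * K * (16 * t) * ℓ ≤ 16 * K * X := by
            calc 2 * K * (16 * t) * ℓ = 16 * K * (2 * t * ℓ) := by ring
              _ ≤ 16 * K * X := mul_le_mul_of_nonneg_left h2 (by positivity)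
          linarith only [b3, b4, hℓK]
        calc K * (1 + y ^ 2) ≤ 2 * K * y ^ 2 := b1
          _ ≤ 1 / (16 * t) * y ^ 2 := mul_le_mul_of_nonneg_right b2 (sq_nonneg _)
          _ = _ := by ring
      have a2 : ℓ * ϑ0 ≤ y ^ 2 / (8 * t) := by
        rw [le_div_iff₀ (by positivity)]
        calc ℓ * ϑ0 * (8 * t) = 4 * (2 * t * ℓ) * ϑ0 := by ring
          _ ≤ 4 * X * ϑ0 := by
            apply mul_le_mul_of_nonneg_right _ hϑ
            linarith only [h2]
          _ ≤ y ^ 2 := hR2'.trans hy2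
      have a3 : -(y ^ 2 / (4 * t)) + (ℓ * ϑ0 + K * (1 + y ^ 2)) ≤ -(y ^ 2 / (16 * t)) := by
        have e2 : y ^ 2 / (4 * t) = y ^ 2 / (8 * t) + y ^ 2 / (16 * t) + y ^ 2 / (16 * t) := by
          field_simp
          ring
        linarith only [a1, a2, e2]
      have a4 := mul_le_mul_of_nonneg_left (hout y) (Real.exp_pos (-(y ^ 2 / (4 * t)))).le
      have a5 : Real.exp (-(y ^ 2 / (4 * t))) * (G * Real.exp (ℓ * ϑ0 + K * (1 + y ^ 2))) ≤
          G * Real.exp (-(y ^ 2 / (16 * t))) := by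
        calc _ = G * Real.exp (-(y ^ 2 / (4 * t)) + (ℓ * ϑ0 + K * (1 + y ^ 2))) := by
              rw [Real.exp_add (-(y ^ 2 / (4 * t)))]; ring
          _ ≤ _ := mul_le_mul_of_nonneg_left (Real.exp_le_exp.2 a3) hG.le
      have h0 : 0 ≤ G * Real.exp a * Real.exp (-(y ^ 2 / (4 * t))) := by positivity
      linarith
  have hgi : Integrable fun y : ℝ => Real.exp (b ^ 2 / (4 * t)) *
      (G * Real.exp a * Real.exp (-(y ^ 2 / (4 * t))) + G * Real.exp (-(y ^ 2 / (16 * t)))) :=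
    ((g1.const_mul _).add (g3.const_mul _)).const_mul _
  have h5 := norm_integral_le_of_norm_le hgi (Eventually.of_forall hb)
  rw [hv, integral_const_mul, integral_add (g1.const_mul _) (g3.const_mul _), integral_const_mul,
    integral_const_mul, g2, g4, norm_mul, Complex.norm_real, Real.norm_eq_abs,
    abs_of_nonneg (Real.sqrt_nonneg _)] at h5
  have hs : 0 < Real.sqrt (4 * Real.pi * t) := Real.sqrt_pos.2 (by positivity)
  have hs2 : Real.sqrt (16 * Real.pi * t) = 2 * Real.sqrt (4 * Real.pi * t) := by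
    rw [show 16 * Real.pi * t = 2 ^ 2 * (4 * Real.pi * t) by ring, Real.sqrt_mul (by norm_num),
      Real.sqrt_sq (by norm_num)]
  rw [hs2] at h5
  have : Real.sqrt (4 * Real.pi * t) * ‖f r‖ ≤
      Real.sqrt (4 * Real.pi * t) * (Real.exp (b ^ 2 / (4 * t)) * (G * (Real.exp a + 2))) := by
    calc _ ≤ _ := h5
      _ = _ := by ring
  exact le_of_mul_le_mul_left this hs

/-- `S_INVX` from the other statements -/
theorem invx_of (h2 : S_HUP) (h4 : S_INV) : S_INVX := by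
  intro K ϑ0 g X κ hK hϑ hϑ2 hg hX1 hκ
  have hXp : 0 < X := by linarith
  obtain ⟨η, hη⟩ : ∃ η : ℝ, η = min (κ / 8) (min (g / 2) (1 / 2)) := ⟨_, rfl⟩
  have hη0 : 0 < η := by rw [hη]; exact lt_min (by positivity) (lt_min (by positivity) (by norm_num))
  have hη1 : η ≤ 1 / 2 := by rw [hη]; exact (min_le_right _ _).trans (min_le_right _ _)
  have hηg : η ≤ g / 2 := by rw [hη]; exact (min_le_right _ _).trans (min_le_left _ _)
  have hηκ : η ≤ κ / 8 := by rw [hη]; exact min_le_left _ _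
  obtain ⟨K', ℓ1, hK', hup⟩ := h2 K ϑ0 X hK hϑ hϑ2 hX1
  obtain ⟨R, hR⟩ : ∃ R : ℝ, R = 4 * X * (ϑ0 + 1) := ⟨_, rfl⟩
  have hR1 : 1 ≤ R := by rw [hR]; nlinarith
  have hRq : 4 * X * (ϑ0 + 1) ≤ R ^ 2 := by
    rw [← hR]
    nlinarith
  refine ⟨η, R, max ℓ1 (max (16 * (2 * K') * X) (4 / κ)), hη0, by linarith, hR1, ?_⟩
  intro ℓ G t f hℓ hU ht hg1 hX2 hH r hr0 hr1
  have q1 : ℓ1 ≤ ℓ := (le_max_left _ _).trans hℓ
  have q2 : 16 * (2 * K') * X ≤ ℓ := ((le_max_left _ _).trans (le_max_right _ _)).trans hℓ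
  have q3 : 4 / κ ≤ ℓ := ((le_max_right _ _).trans (le_max_right _ _)).trans hℓ
  have hLp : 0 < ℓ := by
    have : 0 < 16 * (2 * K') * X := by positivity
    linarith only [this, q2]
  rw [div_le_iff₀ hκ] at q3
  have hτ : 0 < 2 * t * ℓ := by positivity
  obtain ⟨σ, hσ⟩ : ∃ σ : ℝ, σ = max η (r - 2 * t * ℓ) := ⟨_, rfl⟩
  have hσ1 : η ≤ σ := by rw [hσ]; exact le_max_left _ _
  have hσ2 : σ ≤ 1 := by rw [hσ]; exact max_le (by linarith) (by linarith)
  have hσ0 : 0 < σ := by linarith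
  obtain ⟨b, hb⟩ : ∃ b : ℝ, b = r - σ := ⟨_, rfl⟩
  have hrb : r - b = σ := by rw [hb]; ring
  have hG' : 0 < G * Real.exp (t * ℓ ^ 2) := mul_pos hU.hG (Real.exp_pos _)
  have hUp := hup ℓ G t f q1 hU ht hX2
  have hpt := at_pt h4 (K := 2 * K') (t := t) (ℓ := ℓ) (G := G * Real.exp (t * ℓ ^ 2))
    (a := ℓ * σ + η * ℓ) (X := X) (ϑ0 := ϑ0 + 1) (R2 := R) (r := r) (b := b) hU.slow ht hG'
    (by linarith) hX1 hX2 hLp (by linarith) hR1 hRq q2 (by
      intro y hy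
      rw [hrb]
      have h1 := hH ((σ : ℂ) + I * y) (by simpa using hσ1) (by simp; linarith) (by simpa using hy)
      have h3 : ((σ : ℂ) + I * y).re = σ := by simp
      rwa [h3] at h1) (by
      intro y
      rw [hrb]
      refine (hUp ((σ : ℂ) + I * y)).trans
        (mul_le_mul_of_nonneg_left (Real.exp_le_exp.2 ?_) hG'.le)
      have h3 : ((σ : ℂ) + I * y).re = σ := by simp
      have h5 : ((σ : ℂ) + I * y).im = y := by simp
      have h6 : ‖(σ : ℂ) + I * y‖ ^ 2 = σ ^ 2 + y ^ 2 := by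
        rw [Complex.sq_norm, Complex.normSq_apply, h3, h5]
        ring
      rw [h3, h6, abs_of_pos hσ0]
      have h7 : ℓ * max σ ϑ0 ≤ ℓ * (ϑ0 + 1) :=
        mul_le_mul_of_nonneg_left (max_le (by linarith) (by linarith)) hLp.le
      have h8 : σ ^ 2 ≤ 1 := by nlinarith
      have h9 : K' * (1 + (σ ^ 2 + y ^ 2)) ≤ K' * (2 * (1 + y ^ 2)) := by
        apply mul_le_mul_of_nonneg_left _ (by linarith)
        nlinarith [sq_nonneg y]
      linarith)
  refine hpt.trans ?_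
  have hex := expo hτ hη0 (by linarith) hσ hb hr0
  have hex2 := mul_le_mul_of_nonneg_left hex hLp.le
  have id1 : ℓ * (b ^ 2 / (2 * (2 * t * ℓ)) + σ + 2 * t * ℓ / 2) =
      b ^ 2 / (4 * t) + ℓ * σ + t * ℓ ^ 2 := by
    field_simp
    ring
  rw [id1] at hex2
  have h7 : 1 ≤ Real.exp (ℓ * σ + η * ℓ) := Real.one_le_exp (by positivity)
  have h8 : (3 : ℝ) ≤ Real.exp 2 := by
    have := Real.add_one_le_exp (2 : ℝ)
    linarith
  calc Real.exp (b ^ 2 / (4 * t)) * (G * Real.exp (t * ℓ ^ 2) * (Real.exp (ℓ * σ + η * ℓ) + 2))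
      ≤ Real.exp (b ^ 2 / (4 * t)) * (G * Real.exp (t * ℓ ^ 2) *
          (Real.exp (ℓ * σ + η * ℓ) * Real.exp 2)) := by
        apply mul_le_mul_of_nonneg_left _ (Real.exp_pos _).le
        apply mul_le_mul_of_nonneg_left _ hG'.le
        nlinarith
    _ = G * Real.exp (b ^ 2 / (4 * t) + t * ℓ ^ 2 + (ℓ * σ + η * ℓ) + 2) := by
        rw [Real.exp_add _ 2, Real.exp_add (b ^ 2 / (4 * t) + t * ℓ ^ 2),
          Real.exp_add (b ^ 2 / (4 * t))]
        ring
    _ ≤ _ := by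
        apply mul_le_mul_of_nonneg_left _ hU.hG.le
        apply Real.exp_le_exp.2
        have h9 : η * ℓ ≤ κ / 8 * ℓ := mul_le_mul_of_nonneg_right hηκ hLp.le
        nlinarith

end Pool.Agent.W583.HF
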